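import Mathlib
import Pool.Agent.Helper58.LT.ClassDefs
import Pool.Agent.Helper58.LT.Spacing

/-!
# Case A (ClassA): the set of cluster primes
-/

set_option autoImplicit false

namespace Pool.Agent.Helper72.CA

open Finset Pool.Agent.Helper58.LT Pool.Agent.Helper6.LehmerCount

/-- the lower end of the cluster -/
noncomputable def H0 (W β : ℕ) : ℝ := (2 : ℝ) ^ β * Real.exp (-4 * W)

open scoped Classical in
/-- the primes in `[2^β e^{-4W}, 2^(β+1))` -/
noncomputable def KA (W β : ℕ) : Finset ℕ := {p ∈ range (2 ^ (β + 1)) | p.Prime ∧ H0 W β ≤ p}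

/-- the possible values of `a` -/
noncomputable def LA (k W α β : ℕ) : Finset ℕ := Lset k W (H0 W β) (2 ^ α)

theorem mem_KA {W β p : ℕ} : p ∈ KA W β ↔ p < 2 ^ (β + 1) ∧ p.Prime ∧ H0 W β ≤ p := by
  classical
  unfold KA
  rw [mem_filter, mem_range]

end Pool.Agent.Helper72.CA
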