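import Mathlib
import Pool.Agent.Helper72.CA.Defs
import Pool.Agent.Helper58.LT.Pos
import Pool.Agent.Helper69.LT1.CountA

/-!
# Case A, counting part

For every `n ∈ S` choose `(a, c, f)` from `DataA` (`choose!`); `D = a * ∏ i, c i`, `n = D * f`.
The map `n ↦ (a, c)` is injective on `S` (`eq_of_divisor` with `X = 2^l`, `D < n` as `1 < f`,
`2^l ≤ D^2`).  `lam n = lam a + ∑ lam (c i) + lam f` (`n` is squarefree, `lam_mul_of_squarefree`,
`lam_prod`), `lam n ∈ (log k, log k + 2/n]` (`lam_idx`), `2^l * (2 / n) < 4`.  Hence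
`V n = psi N a + ∑ psi N (c i)`, `N = 2^l`, satisfies
`N (log k - lam f) - (r + 1) < V n ≤ N (log k - lam f) + 4`, so two elements `n, n'` with the same `f`
have `|V n - V n'| ≤ r + 5` (integers, strict `<`).
`#S = ∑_f #{n | f n = f}`, at most `F` values of `f` (`1 < f ≤ F`), Cauchy-Schwarz
(`Finset.card_eq_sum_card_fiberwise`, `sq_sum_le_card_mul_sum_sq`):
`#S^2 ≤ F #{(n, n') | f n = f n'} ≤ F ∑_{|v| ≤ r + 5} #{(n, n') | V n = V n' + v}`, and each term is at
most `mom ... 1 r` by injectivity and `en_shift_le`.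
-/

set_option autoImplicit false

namespace Pool.Agent.Helper72.CA

open Finset Pool.Agent.Helper58.LT Pool.Agent.Helper6.LehmerCount Pool.Agent.Helper6.Lehmer

theorem countA {l W k r α β : ℕ} {S : Finset ℕ}
    (hS : ∀ n ∈ S, Idx n k ∧ n ≤ 2 ^ l ∧ 2 ^ (l - 1) < n ∧ DataA n l W k r α β) :
    (#S : ℝ) ^ 2 ≤ ((2 : ℝ) ^ ((l : ℝ) / 2 - (β : ℝ) / 2) * Real.exp (W + 1)) * (2 * r + 11) *
      (mom (LA k W α β) (psi (2 ^ l)) (KA W β) (psi (2 ^ l)) 1 r : ℝ) := by
  have h := Pool.Agent.Helper69.LT1.countA hS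
  have hK : Pool.Agent.Helper69.LT1.clus W β = KA W β := by
    ext p
    rw [mem_KA, Pool.Agent.Helper69.LT1.mem_clus]
    rfl
  rw [hK] at h
  exact h

end Pool.Agent.Helper72.CA
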