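import Mathlib
import Pool.Agent.Helper72.CA.Defs

/-!
# Case A: real inequalities contained in `ConA`
-/

set_option autoImplicit false

namespace Pool.Agent.Helper72.CA

open Finset Pool.Agent.Helper58.LT Pool.Agent.Helper6.LehmerCount

/-- the real parameters of case A -/
structure RA (w ρ a b L : ℝ) : Prop where
  w1 : 100 ≤ w
  r2 : 2 ≤ ρ
  rw : ρ ≤ w
  size1 : 2 * a + (2 * ρ - 1) * b - 40 * w ^ 2 ≤ L
  size2 : L ≤ 2 * a + (2 * ρ - 1) * b + 40 * w ^ 2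
  up : a ≤ b + b / (512 * w ^ 4) + 3
  lo : b - 10 * w ≤ a
  big : L ≤ 4 * w * b
  large : w ^ 60 ≤ 2 * L
  bl : 1000 * w ^ 10 ≤ b

theorem RA.of {l W r α β : ℕ} (hW : 100 ≤ W) (hl : W ^ 60 ≤ l) (hr : 2 ≤ r) (hrW : r ≤ W)
    (h : ConA l W r α β) :
    RA (W : ℝ) (r : ℝ) ((α : ℝ) * Real.log 2) ((β : ℝ) * Real.log 2) ((l : ℝ) * Real.log 2) := by
  have hlog : (0 : ℝ) < Real.log 2 := Real.log_pos (by norm_num)
  have hlog2 : (1 : ℝ) / 2 ≤ Real.log 2 := by
    have := Real.log_two_gt_d9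
    linarith
  have hw : (100 : ℝ) ≤ W := by exact_mod_cast hW
  have hlR : (W : ℝ) ^ 60 ≤ l := by exact_mod_cast hl
  have hbig : (l : ℝ) ≤ 4 * W * β := by exact_mod_cast h.big
  have hL : (W : ℝ) ^ 60 ≤ 2 * ((l : ℝ) * Real.log 2) := by
    have h0 : (0 : ℝ) ≤ l := Nat.cast_nonneg l
    nlinarith
  have hLb : (l : ℝ) * Real.log 2 ≤ 4 * W * (β * Real.log 2) := by
    have := mul_le_mul_of_nonneg_right hbig hlog.le
    linarith
  have hb : 1000 * (W : ℝ) ^ 10 ≤ β * Real.log 2 := by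
    have h1 : (W : ℝ) ^ 60 ≤ 8 * W * (β * Real.log 2) := by linarith
    have h2 : (W : ℝ) ^ 60 = W ^ 49 * W ^ 10 * W := by ring
    have h3 : (8000 : ℝ) ≤ (W : ℝ) ^ 49 := by
      calc (8000 : ℝ) ≤ (W : ℝ) ^ 2 := by nlinarith
        _ ≤ (W : ℝ) ^ 49 := pow_le_pow_right₀ (by linarith) (by norm_num)
    have h4 : (0 : ℝ) < W := by linarith
    have h5 : W ^ 49 * W ^ 10 * (W : ℝ) ≤ (8 * (β * Real.log 2)) * W := by
      rw [← h2]
      linarith
    have h6 : (W : ℝ) ^ 49 * W ^ 10 ≤ 8 * (β * Real.log 2) := le_of_mul_le_mul_right h5 h4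
    have h7 : (0 : ℝ) ≤ (W : ℝ) ^ 10 := by positivity
    nlinarith
  have hs := abs_le.1 h.size
  have hup := h.up
  exact {
    w1 := hw
    r2 := by exact_mod_cast hr
    rw := by exact_mod_cast hrW
    size1 := by linarith [hs.1]
    size2 := by linarith [hs.2]
    up := by
      have e : (1 + 1 / (512 * (W : ℝ) ^ 4)) * ((β : ℝ) * Real.log 2) =
        (β : ℝ) * Real.log 2 + (β : ℝ) * Real.log 2 / (512 * (W : ℝ) ^ 4) := by ring
      linarith
    lo := by linarith [h.lo]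
    big := hLb
    large := hL
    bl := hb }

theorem RA.sidon {w ρ a b L : ℝ} (h : RA w ρ a b L) : 3 * ρ + 2 * ρ * b ≤ L := by
  have h1 := h.size1
  have h2 := h.lo
  have h3 := h.bl
  have hw := h.w1
  have hr := h.rw
  have h4 : w ^ 2 ≤ w ^ 10 := pow_le_pow_right₀ (by linarith) (by norm_num)
  have h5 : w ≤ w ^ 2 := by nlinarith
  nlinarith

theorem RA.sqfree {w ρ a b L : ℝ} (h : RA w ρ a b L) : 3 * ρ + 2 * ρ * a ≤ L := by
  have h1 := h.size1
  have h2 := h.up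
  have h3 := h.bl
  have hw := h.w1
  have hr := h.rw
  have hr2 := h.r2
  have h4 : w ^ 2 ≤ w ^ 10 := pow_le_pow_right₀ (by linarith) (by norm_num)
  have h5 : w ≤ w ^ 2 := by nlinarith
  have hb : 0 ≤ b := by
    have : (0 : ℝ) ≤ w ^ 10 := by positivity
    linarith
  have h6 : (2 * ρ - 2) * (b / (512 * w ^ 4)) ≤ b / 256 := by
    rw [mul_div_assoc', div_le_div_iff₀ (by positivity) (by norm_num)]
    have h7 : w ≤ w ^ 4 := by
      calc w = w ^ 1 := (pow_one w).symm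
        _ ≤ w ^ 4 := pow_le_pow_right₀ (by linarith) (by norm_num)
    have h8 : (2 * ρ - 2) ≤ 2 * w ^ 4 := by linarith
    nlinarith
  have h9 : (2 * ρ - 2) * a ≤ (2 * ρ - 2) * b + b / 256 + 3 * (2 * ρ - 2) := by
    have := mul_le_mul_of_nonneg_left h2 (show (0 : ℝ) ≤ 2 * ρ - 2 by linarith)
    linarith
  nlinarith

end Pool.Agent.Helper72.CA
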