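import Mathlib
import Pool.Agent.Helper72.CA.Facts

/-!
# Case A: numerics
-/

set_option autoImplicit false

namespace Pool.Agent.Helper72.CA

/-- exponent of `J_r` -/
noncomputable def jA (ρ b : ℝ) : ℝ := ρ ^ 2 + ρ * (b + 1)

/-- exponent of `J_s` -/
noncomputable def qA (C w b L : ℝ) : ℝ :=
  C * (8 * w) ^ 10 + 4 * (512 * w ^ 3) * (4 * w + 2) + (2 * (512 * w ^ 3) + 7 / 4) * b - L

/-- first bound for the exponent of `mom r (r-1)` -/
noncomputable def m1A (w ρ a b : ℝ) : ℝ := 2 + 2 * ρ * (a - b / 2 + 3 * w) + ρ ^ 2 + (ρ - 2) * (b + 1)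

/-- second bound -/
noncomputable def m2A (w ρ a b : ℝ) : ℝ :=
  2 + (ρ - 1) * (2 * ρ + b + 1) + ρ * (a - b / 2 + 3 * w) + ρ ^ 2 * w

theorem gam_facts {w ρ a b L t : ℝ} (h : RA w ρ a b L) (ht : t = 1 / (ρ * (512 * w ^ 3 - ρ))) :
    0 < t ∧ t ≤ 1 ∧ t * ρ ≤ 1 / 2 ∧ t * (512 * w ^ 3) = 1 / ρ + t * ρ ∧ 1 / (512 * w ^ 4) ≤ t ∧
      0 ≤ 1 - 1 / ρ - t := by
  have hw := h.w1
  have hr := h.rw
  have hr2 := h.r2
  have hw3 : w ≤ w ^ 3 := by
    calc w = w ^ 1 := (pow_one w).symm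
      _ ≤ w ^ 3 := pow_le_pow_right₀ (by linarith) (by norm_num)
  have hd : 4 ≤ 512 * w ^ 3 - ρ := by linarith
  have hρ : 0 < ρ := by linarith
  have hd0 : 0 < 512 * w ^ 3 - ρ := by linarith
  have hp : 0 < ρ * (512 * w ^ 3 - ρ) := mul_pos hρ hd0
  have hp8 : 8 ≤ ρ * (512 * w ^ 3 - ρ) := by nlinarith
  have ht0 : 0 < t := by rw [ht]; positivity
  have htp : t * (ρ * (512 * w ^ 3 - ρ)) = 1 := by rw [ht]; field_simp
  have ht8 : t ≤ 1 / 8 := by
    rw [ht]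
    exact one_div_le_one_div_of_le (by norm_num) hp8
  have htr : t * ρ ≤ 1 / 4 := by
    have h1 : t * ρ * 4 ≤ t * ρ * (512 * w ^ 3 - ρ) :=
      mul_le_mul_of_nonneg_left hd (by positivity)
    have h2 : t * ρ * (512 * w ^ 3 - ρ) = 1 := by rw [mul_assoc]; exact htp
    linarith
  have hi : 1 / ρ ≤ 1 / 2 := one_div_le_one_div_of_le (by norm_num) hr2
  refine ⟨ht0, by linarith, by linarith, ?_, ?_, by linarith⟩
  · have h1 : ρ * (t * (512 * w ^ 3)) = ρ * (1 / ρ + t * ρ) := by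
      have : ρ * (1 / ρ) = 1 := by field_simp
      rw [mul_add, this]
      nlinarith
    exact mul_left_cancel₀ hρ.ne' h1
  · rw [ht]
    apply one_div_le_one_div_of_le hp
    have h1 : ρ * (512 * w ^ 3 - ρ) ≤ w * (512 * w ^ 3) :=
      mul_le_mul hr (by linarith) hd0.le (by linarith)
    have h2 : w * (512 * w ^ 3) = 512 * w ^ 4 := by ring
    linarith

/-- the final comparison -/
theorem num_final {w ρ a b L t E : ℝ} (h : RA w ρ a b L) (hw : 300 ≤ w)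
    (ht : 1 / (512 * w ^ 4) ≤ t) (_ht1 : t ≤ 1)
    (hE : E ≤ L + b / (512 * w ^ 4) - t * (5 / 4 * b) + 3 * 2 ^ 30 * w ^ 11) :
    E ≤ L - 3 * L / w ^ 7 := by
  have hb0 : 0 ≤ b := by
    have := h.bl
    have h10 : (0 : ℝ) ≤ w ^ 10 := by positivity
    linarith
  have hw0 : 0 < w := by linarith
  have hL0 : 0 ≤ L := by
    have := h.large
    have h10 : (0 : ℝ) ≤ w ^ 60 := by positivity
    linarith
  -- t * 5/4 b - b/(512 w^4) ≥ b / (2048 w^4)
  have h1 : b / (512 * w ^ 4) * (5 / 4) ≤ t * (5 / 4 * b) := by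
    have := mul_le_mul_of_nonneg_right ht (show 0 ≤ 5 / 4 * b by linarith)
    calc b / (512 * w ^ 4) * (5 / 4) = 1 / (512 * w ^ 4) * (5 / 4 * b) := by ring
      _ ≤ _ := this
  have h2 : L / (8192 * w ^ 5) ≤ b / (512 * w ^ 4) * (1 / 4) := by
    have := h.big
    calc L / (8192 * w ^ 5) ≤ (4 * w * b) / (8192 * w ^ 5) :=
          div_le_div_of_nonneg_right this (by positivity)
      _ = b / (512 * w ^ 4) * (1 / 4) := by
          field_simp
          ring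
  have h3 : 3 * L / w ^ 7 ≤ L / (16384 * w ^ 5) := by
    have h4 : 3 * L / w ^ 7 = (3 / w ^ 2) * (L / w ^ 5) := by
      field_simp
    have h5 : L / (16384 * w ^ 5) = (1 / 16384) * (L / w ^ 5) := by
      field_simp
    rw [h4, h5]
    apply mul_le_mul_of_nonneg_right _ (by positivity)
    rw [div_le_div_iff₀ (by positivity) (by norm_num)]
    nlinarith
  have h6 : 3 * 2 ^ 30 * w ^ 11 ≤ L / (16384 * w ^ 5) := by
    rw [le_div_iff₀ (by positivity)]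
    have h7 := h.large
    have h8 : w ^ 60 = w ^ 44 * w ^ 16 := by ring
    have h9 : (3 : ℝ) * 2 ^ 45 ≤ w ^ 44 := by
      calc (3 : ℝ) * 2 ^ 45 ≤ 300 ^ 44 := by norm_num
        _ ≤ w ^ 44 := pow_le_pow_left₀ (by norm_num) hw _
    have h10 : (3 : ℝ) * 2 ^ 45 * w ^ 16 ≤ w ^ 44 * w ^ 16 :=
      mul_le_mul_of_nonneg_right h9 (by positivity)
    have h11 : 3 * 2 ^ 30 * w ^ 11 * (16384 * w ^ 5) = 3 * 2 ^ 44 * w ^ 16 := by ring
    rw [h11]
    have h12 : (3 : ℝ) * 2 ^ 45 * w ^ 16 = 2 * (3 * 2 ^ 44 * w ^ 16) := by ring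
    linarith
  have h13 : L / (8192 * w ^ 5) = L / (16384 * w ^ 5) + L / (16384 * w ^ 5) := by
    field_simp
    ring
  have h14 : b / (512 * w ^ 4) * (5 / 4) = b / (512 * w ^ 4) + b / (512 * w ^ 4) * (1 / 4) := by ring
  linarith

theorem num1 {w ρ a b L t C : ℝ} (h : RA w ρ a b L) (hw : 300 ≤ w) (hC : 0 ≤ C) (hCw : C ≤ w)
    (ht : t = 1 / (ρ * (512 * w ^ 3 - ρ))) :
    (L / 2 - b / 2 + w + 1) + (2 * ρ + 11) + m1A w ρ a b / ρ + (1 - 1 / ρ - t) * jA ρ b +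
      t * qA C w b L ≤ L - 3 * L / w ^ 7 := by
  obtain ⟨ht0, ht1, htr, hts, htl, -⟩ := gam_facts h ht
  apply num_final h hw htl ht1
  have hr := h.rw
  have hr2 := h.r2
  have hρ : ρ ≠ 0 := by linarith
  have hρ0 : 0 < ρ := by linarith
  have hb0 : 0 ≤ b := by
    have := h.bl
    have h10 : (0 : ℝ) ≤ w ^ 10 := by positivity
    linarith
  set i : ℝ := 1 / ρ with hi
  have hiρ : i * ρ = 1 := by rw [hi]; field_simp
  have hi0 : 0 < i := by rw [hi]; positivity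
  have hi2 : i ≤ 1 / 2 := by rw [hi]; exact one_div_le_one_div_of_le (by norm_num) hr2
  have e1 : m1A w ρ a b / ρ = 2 * i + 2 * (a - b / 2 + 3 * w) + ρ + (1 - 2 * i) * (b + 1) := by
    unfold m1A
    rw [div_eq_iff hρ]
    have : i * ρ = 1 := hiρ
    linear_combination (-2 + 2 * (b + 1)) * this
  have e2 : (1 - i - t) * jA ρ b = (ρ - 1 - t * ρ) * ρ + (ρ - 1 - t * ρ) * (b + 1) := by
    unfold jA
    linear_combination (-ρ - (b + 1)) * hiρ
  have e3 : t * qA C w b L = t * (C * (8 * w) ^ 10) + 4 * (i + t * ρ) * (4 * w + 2) +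
      2 * (i + t * ρ) * b + t * (7 / 4 * b) - t * L := by
    unfold qA
    linear_combination (4 * (4 * w + 2) + 2 * b) * hts
  rw [e1, e2, e3]
  -- errors
  have c1 : t * (C * (8 * w) ^ 10) ≤ 2 ^ 30 * w ^ 11 := by
    have h1 : (0 : ℝ) ≤ C * (8 * w) ^ 10 := by positivity
    have h2 : t * (C * (8 * w) ^ 10) ≤ 1 * (C * (8 * w) ^ 10) :=
      mul_le_mul_of_nonneg_right ht1 h1
    have h3 : C * (8 * w) ^ 10 ≤ w * (8 * w) ^ 10 :=
      mul_le_mul_of_nonneg_right hCw (by positivity)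
    have h4 : w * (8 * w) ^ 10 = 2 ^ 30 * w ^ 11 := by ring
    linarith
  have c2 : 4 * (i + t * ρ) * (4 * w + 2) ≤ 4 * 1 * (4 * w + 2) := by
    apply mul_le_mul_of_nonneg_right _ (by linarith)
    linarith
  have c3 : (ρ - 1 - t * ρ) * ρ ≤ w ^ 2 := by
    have h1 : ρ - 1 - t * ρ ≤ w := by
      have : 0 ≤ t * ρ := by positivity
      linarith
    have h2 : 0 ≤ ρ - 1 - t * ρ := by linarith
    calc (ρ - 1 - t * ρ) * ρ ≤ w * w := mul_le_mul h1 hr hρ0.le (by linarith)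
      _ = w ^ 2 := by ring
  -- main
  have d1 := h.size1
  have d2 := h.up
  have d3 := h.lo
  have d4 : t * ((ρ - 3 / 4) * b - 20 * w - 40 * w ^ 2) ≤ t * (L - (ρ + 7 / 4) * b) := by
    apply mul_le_mul_of_nonneg_left _ ht0.le
    linarith
  have d5 : t * (5 / 4 * b) - (20 * w + 40 * w ^ 2) ≤ t * ((ρ - 3 / 4) * b - 20 * w - 40 * w ^ 2) := by
    have h1 : t * (20 * w + 40 * w ^ 2) ≤ 1 * (20 * w + 40 * w ^ 2) :=
      mul_le_mul_of_nonneg_right ht1 (by positivity)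
    have h2 : t * (5 / 4 * b) ≤ t * ((ρ - 3 / 4) * b) := by
      apply mul_le_mul_of_nonneg_left _ ht0.le
      apply mul_le_mul_of_nonneg_right _ hb0
      linarith
    have h3 : t * ((ρ - 3 / 4) * b - 20 * w - 40 * w ^ 2) =
      t * ((ρ - 3 / 4) * b) - t * (20 * w + 40 * w ^ 2) := by ring
    linarith
  have w2 : w ≤ w ^ 2 := by nlinarith
  have w11 : w ^ 2 ≤ w ^ 11 := pow_le_pow_right₀ (by linarith) (by norm_num)
  have tr0 : 0 ≤ t * ρ := by positivity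
  have key : (L / 2 - b / 2 + w + 1) + (2 * ρ + 11) +
      (2 * i + 2 * (a - b / 2 + 3 * w) + ρ + (1 - 2 * i) * (b + 1)) +
      ((ρ - 1 - t * ρ) * ρ + (ρ - 1 - t * ρ) * (b + 1)) +
      (t * (C * (8 * w) ^ 10) + 4 * (i + t * ρ) * (4 * w + 2) + 2 * (i + t * ρ) * b +
        t * (7 / 4 * b) - t * L) =
      L / 2 + (2 * a + (ρ - 3 / 2) * b) - t * (L - (ρ + 7 / 4) * b) +
      (w + 1 + (2 * ρ + 11) + 2 * i + 6 * w + ρ + (1 - 2 * i) + (ρ - 1 - t * ρ) * ρ +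
        (ρ - 1 - t * ρ) + t * (C * (8 * w) ^ 10) + 4 * (i + t * ρ) * (4 * w + 2)) := by
    ring
  rw [key]
  nlinarith

theorem num2 {w ρ a b L t C : ℝ} (h : RA w ρ a b L) (hw : 300 ≤ w) (hC : 0 ≤ C) (hCw : C ≤ w)
    (ht : t = 1 / (ρ * (512 * w ^ 3 - ρ))) :
    (L / 2 - b / 2 + w + 1) + (2 * ρ + 11) + m2A w ρ a b / ρ + (1 - 1 / ρ - t) * jA ρ b +
      t * qA C w b L ≤ L - 3 * L / w ^ 7 := by
  obtain ⟨ht0, ht1, htr, hts, htl, -⟩ := gam_facts h ht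
  apply num_final h hw htl ht1
  have hr := h.rw
  have hr2 := h.r2
  have hρ : ρ ≠ 0 := by linarith
  have hρ0 : 0 < ρ := by linarith
  have hb0 : 0 ≤ b := by
    have := h.bl
    have h10 : (0 : ℝ) ≤ w ^ 10 := by positivity
    linarith
  set i : ℝ := 1 / ρ with hi
  have hiρ : i * ρ = 1 := by rw [hi]; field_simp
  have hi0 : 0 < i := by rw [hi]; positivity
  have hi2 : i ≤ 1 / 2 := by rw [hi]; exact one_div_le_one_div_of_le (by norm_num) hr2
  have e1 : m2A w ρ a b / ρ = 2 * i + (1 - i) * (2 * ρ + b + 1) + (a - b / 2 + 3 * w) + ρ * w := by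
    unfold m2A
    rw [div_eq_iff hρ]
    linear_combination (-2 + (2 * ρ + b + 1)) * hiρ
  have e2 : (1 - i - t) * jA ρ b = (ρ - 1 - t * ρ) * ρ + (ρ - 1 - t * ρ) * (b + 1) := by
    unfold jA
    linear_combination (-ρ - (b + 1)) * hiρ
  have e3 : t * qA C w b L = t * (C * (8 * w) ^ 10) + 4 * (i + t * ρ) * (4 * w + 2) +
      2 * (i + t * ρ) * b + t * (7 / 4 * b) - t * L := by
    unfold qA
    linear_combination (4 * (4 * w + 2) + 2 * b) * hts
  rw [e1, e2, e3]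
  have c1 : t * (C * (8 * w) ^ 10) ≤ 2 ^ 30 * w ^ 11 := by
    have h1 : (0 : ℝ) ≤ C * (8 * w) ^ 10 := by positivity
    have h2 : t * (C * (8 * w) ^ 10) ≤ 1 * (C * (8 * w) ^ 10) :=
      mul_le_mul_of_nonneg_right ht1 h1
    have h3 : C * (8 * w) ^ 10 ≤ w * (8 * w) ^ 10 :=
      mul_le_mul_of_nonneg_right hCw (by positivity)
    have h4 : w * (8 * w) ^ 10 = 2 ^ 30 * w ^ 11 := by ring
    linarith
  have c2 : 4 * (i + t * ρ) * (4 * w + 2) ≤ 4 * 1 * (4 * w + 2) := by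
    apply mul_le_mul_of_nonneg_right _ (by linarith)
    linarith
  have c3 : (ρ - 1 - t * ρ) * ρ ≤ w ^ 2 := by
    have h1 : ρ - 1 - t * ρ ≤ w := by
      have : 0 ≤ t * ρ := by positivity
      linarith
    have h2 : 0 ≤ ρ - 1 - t * ρ := by linarith
    calc (ρ - 1 - t * ρ) * ρ ≤ w * w := mul_le_mul h1 hr hρ0.le (by linarith)
      _ = w ^ 2 := by ring
  have c4 : ρ * w ≤ w ^ 2 := by nlinarith
  have c5 : (1 - i) * (2 * ρ + 1) ≤ 2 * w + 1 := by
    have : 0 ≤ i * (2 * ρ + 1) := by positivity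
    nlinarith
  have c6 : i * b ≤ 1 / 2 * b := mul_le_mul_of_nonneg_right hi2 hb0
  have d1 := h.size1
  have d2 := h.up
  have d3 := h.lo
  have hup0 : 0 ≤ b / (512 * w ^ 4) := by positivity
  have d4 : t * ((ρ - 3 / 4) * b - 20 * w - 40 * w ^ 2) ≤ t * (L - (ρ + 7 / 4) * b) := by
    apply mul_le_mul_of_nonneg_left _ ht0.le
    linarith
  have d5 : t * (5 / 4 * b) - (20 * w + 40 * w ^ 2) ≤ t * ((ρ - 3 / 4) * b - 20 * w - 40 * w ^ 2) := by
    have h1 : t * (20 * w + 40 * w ^ 2) ≤ 1 * (20 * w + 40 * w ^ 2) :=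
      mul_le_mul_of_nonneg_right ht1 (by positivity)
    have h2 : t * (5 / 4 * b) ≤ t * ((ρ - 3 / 4) * b) := by
      apply mul_le_mul_of_nonneg_left _ ht0.le
      apply mul_le_mul_of_nonneg_right _ hb0
      linarith
    have h3 : t * ((ρ - 3 / 4) * b - 20 * w - 40 * w ^ 2) =
      t * ((ρ - 3 / 4) * b) - t * (20 * w + 40 * w ^ 2) := by ring
    linarith
  have w2 : w ≤ w ^ 2 := by nlinarith
  have w11 : w ^ 2 ≤ w ^ 11 := pow_le_pow_right₀ (by linarith) (by norm_num)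
  have tr0 : 0 ≤ t * ρ := by positivity
  have key : (L / 2 - b / 2 + w + 1) + (2 * ρ + 11) +
      (2 * i + (1 - i) * (2 * ρ + b + 1) + (a - b / 2 + 3 * w) + ρ * w) +
      ((ρ - 1 - t * ρ) * ρ + (ρ - 1 - t * ρ) * (b + 1)) +
      (t * (C * (8 * w) ^ 10) + 4 * (i + t * ρ) * (4 * w + 2) + 2 * (i + t * ρ) * b +
        t * (7 / 4 * b) - t * L) =
      L / 2 + (a + (ρ - 1) * b + i * b) - t * (L - (ρ + 7 / 4) * b) +
      (w + 1 + (2 * ρ + 11) + 2 * i + (1 - i) * (2 * ρ + 1) + 3 * w + ρ * w +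
        (ρ - 1 - t * ρ) * ρ +
        (ρ - 1 - t * ρ) + t * (C * (8 * w) ^ 10) + 4 * (i + t * ρ) * (4 * w + 2)) := by
    ring
  rw [key]
  nlinarith

end Pool.Agent.Helper72.CA
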