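import Mathlib
import Pool.Agent.Helper72.CA.Num
import Pool.Agent.Helper58.LT.KeyBound
import Pool.Agent.Helper58.LT.Sidon
import Pool.Agent.Helper73.HM.Final
import Pool.Agent.Helper84.VM.Final

/-!
# Case A: the bound for the mixed moment
-/

set_option autoImplicit false

namespace Pool.Agent.Helper72.CA

open Finset Pool.Agent.Helper58.LT Pool.Agent.Helper6.LehmerCount

theorem HM : ∃ C : ℝ, 0 < C ∧ ∀ k Q N H : ℕ, 2 ≤ k → 16 ≤ Q → 1 ≤ N → 1 ≤ H →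
      (N : ℝ) ≤ (Q : ℝ) ^ (((k : ℝ) + 2) / 2) →
      ∀ I : Finset ℕ, I ⊆ Icc Q (H * Q) →
        (Js I (Pool.Agent.Helper73.HM.psq N) (k ^ 3) : ℝ) ≤
          Real.exp (C * (k : ℝ) ^ 10) * (H : ℝ) ^ (4 * k ^ 3) *
          (Q : ℝ) ^ ((2 : ℝ) * (k : ℝ) ^ 3 + 7 / 4) / N := by
  obtain ⟨C, hC, h⟩ := Pool.Agent.Helper84.VM.vmvt
  exact Pool.Agent.Helper73.HM.HM_of_vmvt ⟨C, hC, fun k X hk hX => h k hk X hX⟩

theorem two_pow_eq (n : ℕ) : (2 : ℝ) ^ n = Real.exp ((n : ℝ) * Real.log 2) := by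
  rw [Real.exp_nat_mul, Real.exp_log (by norm_num)]

theorem H0_eq (W β : ℕ) : H0 W β = Real.exp ((β : ℝ) * Real.log 2 - 4 * W) := by
  unfold H0
  rw [two_pow_eq, ← Real.exp_add]
  congr 1
  ring

theorem two_mul_le_two_pow {r : ℕ} (hr : 2 ≤ r) : 2 * r ≤ 2 ^ r := by
  obtain ⟨h, rfl⟩ : ∃ h, r = h + 2 := ⟨r - 2, by omega⟩
  induction h with
  | zero => norm_num
  | succ n ih =>
    have h1 : 2 * (n + 2) ≤ 2 ^ (n + 2) := ih (by omega)
    calc 2 * (n + 1 + 2) ≤ 2 * (2 * (n + 2)) := by omega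
      _ ≤ 2 * 2 ^ (n + 2) := Nat.mul_le_mul_left 2 h1
      _ = 2 ^ (n + 1 + 2) := by ring

/-- the conditions on `N = 2^l` -/
theorem cond_pow {l r x : ℕ} (hr : 2 ≤ r)
    (h : 3 * (r : ℝ) + 2 * r * ((x : ℝ) * Real.log 2) ≤ (l : ℝ) * Real.log 2) :
    2 * r * (2 ^ (x + 1)) ^ (2 * r) ≤ 2 ^ l := by
  have hlog : (0 : ℝ) < Real.log 2 := Real.log_pos (by norm_num)
  have hlog1 : Real.log 2 ≤ 1 := by
    have := Real.log_two_lt_d9
    linarith
  have h1 : r + (x + 1) * (2 * r) ≤ l := by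
    have h2 : ((r + (x + 1) * (2 * r) : ℕ) : ℝ) * Real.log 2 ≤ (l : ℝ) * Real.log 2 := by
      refine le_trans ?_ h
      push_cast
      have hr0 : (0 : ℝ) ≤ r := Nat.cast_nonneg r
      nlinarith
    have h3 := le_of_mul_le_mul_right h2 hlog
    exact_mod_cast h3
  calc 2 * r * (2 ^ (x + 1)) ^ (2 * r) ≤ 2 ^ r * (2 ^ (x + 1)) ^ (2 * r) :=
        Nat.mul_le_mul_right _ (two_mul_le_two_pow hr)
    _ = 2 ^ (r + (x + 1) * (2 * r)) := by rw [← pow_mul, ← pow_add]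
    _ ≤ 2 ^ l := Nat.pow_le_pow_right (by norm_num) h1

theorem factorial_le_exp (n : ℕ) : (n.factorial : ℝ) ≤ Real.exp ((n : ℝ) ^ 2) := by
  have h1 : (n.factorial : ℝ) ≤ (n : ℝ) ^ n := by exact_mod_cast Nat.factorial_le_pow n
  have h2 : (n : ℝ) ≤ Real.exp n := by
    have := Real.add_one_le_exp (n : ℝ)
    linarith
  calc (n.factorial : ℝ) ≤ (n : ℝ) ^ n := h1
    _ ≤ (Real.exp n) ^ n := pow_le_pow_left₀ (Nat.cast_nonneg n) h2 n
    _ = Real.exp ((n : ℝ) ^ 2) := by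
        rw [← Real.exp_nat_mul]
        congr 1
        ring

theorem card_LA {l W k r α β : ℕ} (hW : 100 ≤ W) (hl : W ^ 60 ≤ l) (hr : 2 ≤ r) (hrW : r ≤ W)
    (h : ConA l W r α β) :
    (#(LA k W α β) : ℝ) ≤
      Real.exp ((α : ℝ) * Real.log 2 - (β : ℝ) * Real.log 2 / 2 + 3 * W) := by
  have hR := RA.of hW hl hr hrW h
  have hw : (100 : ℝ) ≤ W := hR.w1
  have hH0 : H0 W β = Real.exp ((β : ℝ) * Real.log 2 - 4 * W) := H0_eq W β
  have hH1 : 1 ≤ H0 W β := by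
    rw [hH0]
    apply Real.one_le_exp
    have := hR.bl
    have h4 : (W : ℝ) ≤ W ^ 10 := by
      calc (W : ℝ) = (W : ℝ) ^ 1 := (pow_one _).symm
        _ ≤ (W : ℝ) ^ 10 := pow_le_pow_right₀ (by linarith) (by norm_num)
    nlinarith
  have hg : H0 W β ≤ 4 * W * ((2 ^ α : ℕ) : ℝ) := by
    have := h.grow
    unfold H0
    push_cast
    exact this
  have hc := card_Lset k W (2 ^ α) (H0 W β) (by omega) hH1 hg
  refine hc.trans ?_
  have hsq : Real.sqrt (H0 W β) = Real.exp (((β : ℝ) * Real.log 2 - 4 * W) / 2) := by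
    rw [hH0, Real.sqrt_eq_rpow, ← Real.exp_mul]
    congr 1
    ring
  rw [hsq]
  push_cast
  rw [two_pow_eq, div_le_iff₀ (Real.exp_pos _), ← Real.exp_add]
  have h24 : 24 * (W : ℝ) ^ 2 ≤ Real.exp W := by
    have h1 : (W : ℝ) / 5 ≤ Real.exp (W / 5) := by
      have := Real.add_one_le_exp ((W : ℝ) / 5)
      linarith
    have h2 : ((W : ℝ) / 5) ^ 5 ≤ (Real.exp (W / 5)) ^ 5 := pow_le_pow_left₀ (by positivity) h1 5
    have h3 : (Real.exp ((W : ℝ) / 5)) ^ 5 = Real.exp W := by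
      rw [← Real.exp_nat_mul]
      congr 1
      push_cast
      ring
    rw [h3] at h2
    refine le_trans ?_ h2
    have h5 : ((W : ℝ) / 5) ^ 5 = (W : ℝ) ^ 2 * (W ^ 3 / 3125) := by ring
    rw [h5, mul_comm]
    apply mul_le_mul_of_nonneg_left _ (by positivity)
    have h6 : (100 : ℝ) ^ 3 ≤ (W : ℝ) ^ 3 := pow_le_pow_left₀ (by norm_num) hw 3
    linarith
  calc 24 * (W : ℝ) ^ 2 * Real.exp ((α : ℝ) * Real.log 2)
      ≤ Real.exp W * Real.exp ((α : ℝ) * Real.log 2) := by gcongr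
    _ = Real.exp (W + (α : ℝ) * Real.log 2) := by rw [← Real.exp_add]
    _ ≤ _ := by
        apply Real.exp_le_exp.2
        linarith

theorem card_KA (W β : ℕ) : (#(KA W β) : ℝ) ≤ Real.exp ((β : ℝ) * Real.log 2 + 1) := by
  classical
  have h1 : #(KA W β) ≤ 2 ^ (β + 1) := by
    unfold KA
    exact (card_filter_le _ _).trans (by simp)
  have h2 : (2 : ℝ) ≤ Real.exp 1 := by
    have := Real.add_one_le_exp (1 : ℝ)
    linarith
  calc (#(KA W β) : ℝ) ≤ ((2 ^ (β + 1) : ℕ) : ℝ) := by exact_mod_cast h1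
    _ = (2 : ℝ) ^ β * 2 := by push_cast; ring
    _ ≤ Real.exp ((β : ℝ) * Real.log 2) * Real.exp 1 := by
        rw [two_pow_eq]
        gcongr
    _ = _ := by rw [← Real.exp_add]

theorem Js_congr {ι A : Type*} [AddCommGroup A] [DecidableEq A] {I : Finset ι} {f g : ι → A}
    (h : ∀ i ∈ I, f i = g i) (s : ℕ) : Js I f s = Js I g s := by
  unfold Js en
  congr 1
  apply filter_congr
  intro z hz
  rw [mem_product] at hz
  have e : ∀ x ∈ tup I s, sm' f x = sm' g x := by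
    intro x hx
    unfold sm'
    exact Finset.sum_congr rfl fun i _ => h _ (mem_tup.1 hx i)
  rw [e _ hz.1, e _ hz.2]

theorem JsHM {C : ℝ} (hHM : ∀ k Q N H : ℕ, 2 ≤ k → 16 ≤ Q → 1 ≤ N → 1 ≤ H →
      (N : ℝ) ≤ (Q : ℝ) ^ (((k : ℝ) + 2) / 2) →
      ∀ I : Finset ℕ, I ⊆ Icc Q (H * Q) →
        (Js I (Pool.Agent.Helper73.HM.psq N) (k ^ 3) : ℝ) ≤
          Real.exp (C * (k : ℝ) ^ 10) * (H : ℝ) ^ (4 * k ^ 3) *
          (Q : ℝ) ^ ((2 : ℝ) * (k : ℝ) ^ 3 + 7 / 4) / N)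
    {l W r α β : ℕ} (hW : 100 ≤ W) (hl : W ^ 60 ≤ l) (hr : 2 ≤ r) (hrW : r ≤ W)
    (h : ConA l W r α β) :
    (Js (KA W β) (psi (2 ^ l)) (512 * W ^ 3) : ℝ) ≤
      Real.exp (qA C W ((β : ℝ) * Real.log 2) ((l : ℝ) * Real.log 2)) := by
  have hR := RA.of hW hl hr hrW h
  have hw : (100 : ℝ) ≤ W := hR.w1
  set b : ℝ := (β : ℝ) * Real.log 2 with hb
  set L : ℝ := (l : ℝ) * Real.log 2 with hL
  have hH0 : H0 W β = Real.exp (b - 4 * W) := H0_eq W β
  have hw2 : (W : ℝ) ^ 2 ≤ W ^ 10 := pow_le_pow_right₀ (by linarith) (by norm_num)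
  have hw1 : (W : ℝ) ≤ W ^ 2 := by nlinarith
  have hbl := hR.bl
  set Q : ℕ := ⌈H0 W β⌉₊ with hQ
  set H : ℕ := ⌈2 * Real.exp (4 * W)⌉₊ with hH
  have hQge : H0 W β ≤ Q := Nat.le_ceil _
  have hHge : 2 * Real.exp (4 * W) ≤ (H : ℝ) := Nat.le_ceil _
  have hHle : (H : ℝ) ≤ Real.exp (4 * W + 2) := by
    have h1 := (Nat.ceil_lt_add_one (show 0 ≤ 2 * Real.exp (4 * W) by positivity)).le
    have h2 : (1 : ℝ) ≤ Real.exp (4 * W) := Real.one_le_exp (by positivity)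
    have h3 : (3 : ℝ) ≤ Real.exp 2 := by
      have := Real.add_one_le_exp (2 : ℝ)
      linarith
    rw [← hH] at h1
    rw [Real.exp_add]
    nlinarith
  have hQle : (Q : ℝ) ≤ Real.exp b := by
    have h1 : H0 W β ≤ ((2 ^ β : ℕ) : ℝ) := by
      push_cast
      rw [hH0, two_pow_eq]
      apply Real.exp_le_exp.2
      rw [← hb]
      linarith
    have h2 : Q ≤ 2 ^ β := Nat.ceil_le.2 h1
    calc (Q : ℝ) ≤ ((2 ^ β : ℕ) : ℝ) := by exact_mod_cast h2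
      _ = Real.exp b := by push_cast; rw [two_pow_eq]
  have hQ16 : 16 ≤ Q := by
    have h1 : (16 : ℝ) ≤ Q := by
      refine le_trans ?_ hQge
      rw [hH0]
      have := Real.add_one_le_exp (b - 4 * W)
      nlinarith
    exact_mod_cast h1
  have hH1 : 1 ≤ H := by
    rw [hH]
    exact Nat.one_le_ceil_iff.2 (by positivity)
  have hNe : ((2 ^ l : ℕ) : ℝ) = Real.exp L := by push_cast; rw [two_pow_eq]
  have hNQ : ((2 ^ l : ℕ) : ℝ) ≤ (Q : ℝ) ^ ((((8 * W : ℕ) : ℝ) + 2) / 2) := by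
    have e : (((8 * W : ℕ) : ℝ) + 2) / 2 = 4 * W + 1 := by push_cast; ring
    rw [e, hNe]
    calc Real.exp L ≤ Real.exp ((b - 4 * W) * (4 * W + 1)) := by
          apply Real.exp_le_exp.2
          have := hR.big
          nlinarith
      _ = (Real.exp (b - 4 * W)) ^ ((4 : ℝ) * W + 1) := by rw [Real.exp_mul]
      _ ≤ (Q : ℝ) ^ ((4 : ℝ) * W + 1) := by
          apply Real.rpow_le_rpow (Real.exp_pos _).le _ (by positivity)
          rw [← hH0]
          exact hQge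
  have hsub : KA W β ⊆ Icc Q (H * Q) := by
    intro p hp
    rw [mem_KA] at hp
    rw [mem_Icc]
    refine ⟨Nat.ceil_le.2 hp.2.2, ?_⟩
    have h1 : ((2 ^ (β + 1) : ℕ) : ℝ) ≤ ((H * Q : ℕ) : ℝ) := by
      push_cast
      have e : (2 : ℝ) ^ (β + 1) = (2 * Real.exp (4 * W)) * H0 W β := by
        rw [pow_succ, two_pow_eq, ← hb, hH0, mul_assoc 2, ← Real.exp_add]
        rw [show 4 * (W : ℝ) + (b - 4 * W) = b by ring, mul_comm]
      rw [e]
      have : 0 ≤ H0 W β := by rw [hH0]; positivity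
      gcongr
    have h2 : 2 ^ (β + 1) ≤ H * Q := by exact_mod_cast h1
    omega
  have hmain := hHM (8 * W) Q (2 ^ l) H (by omega) hQ16 (Nat.one_le_two_pow) hH1 hNQ (KA W β) hsub
  have e1 : (8 * W) ^ 3 = 512 * W ^ 3 := by ring
  have e2 : Js (KA W β) (psi (2 ^ l)) (512 * W ^ 3) =
      Js (KA W β) (Pool.Agent.Helper73.HM.psq (2 ^ l)) (512 * W ^ 3) := by
    apply Js_congr
    intro p hp
    rw [mem_KA] at hp
    exact psi_prime hp.2.1
  rw [e1] at hmain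
  rw [e2]
  refine hmain.trans ?_
  rw [hNe]
  have f1 : (H : ℝ) ^ (4 * (512 * W ^ 3)) ≤ Real.exp (4 * (512 * (W : ℝ) ^ 3) * (4 * W + 2)) := by
    calc (H : ℝ) ^ (4 * (512 * W ^ 3)) ≤ (Real.exp (4 * W + 2)) ^ (4 * (512 * W ^ 3)) :=
          pow_le_pow_left₀ (Nat.cast_nonneg _) hHle _
      _ = _ := by
          rw [← Real.exp_nat_mul]
          congr 1
          push_cast
          ring
  have f2 : (Q : ℝ) ^ ((2 : ℝ) * ((8 * W : ℕ) : ℝ) ^ 3 + 7 / 4) ≤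
      Real.exp ((2 * (512 * (W : ℝ) ^ 3) + 7 / 4) * b) := by
    calc (Q : ℝ) ^ ((2 : ℝ) * ((8 * W : ℕ) : ℝ) ^ 3 + 7 / 4)
        ≤ (Real.exp b) ^ ((2 : ℝ) * ((8 * W : ℕ) : ℝ) ^ 3 + 7 / 4) :=
          Real.rpow_le_rpow (Nat.cast_nonneg _) hQle (by positivity)
      _ = _ := by
          rw [← Real.exp_mul]
          congr 1
          push_cast
          ring
  have f3 : Real.exp (C * ((8 * W : ℕ) : ℝ) ^ 10) = Real.exp (C * (8 * (W : ℝ)) ^ 10) := by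
    push_cast
    rfl
  rw [div_le_iff₀ (Real.exp_pos _), f3]
  calc Real.exp (C * (8 * (W : ℝ)) ^ 10) * (H : ℝ) ^ (4 * (512 * W ^ 3)) *
        (Q : ℝ) ^ ((2 : ℝ) * ((8 * W : ℕ) : ℝ) ^ 3 + 7 / 4)
      ≤ Real.exp (C * (8 * (W : ℝ)) ^ 10) * Real.exp (4 * (512 * (W : ℝ) ^ 3) * (4 * W + 2)) *
        Real.exp ((2 * (512 * (W : ℝ) ^ 3) + 7 / 4) * b) := by gcongr
    _ = Real.exp (qA C W b L) * Real.exp L := by
        rw [← Real.exp_add, ← Real.exp_add, ← Real.exp_add]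
        congr 1
        unfold qA
        ring

theorem LA_mem {k W α β m : ℕ} (hm : m ∈ LA k W α β) :
    Squarefree m ∧ m ≤ 2 ^ (α + 1) ∧ m.primeFactors.card ≤ W := by
  classical
  unfold LA Lset at hm
  rw [mem_filter, mem_Ico] at hm
  refine ⟨hm.2.1, ?_, hm.2.2.1⟩
  have := hm.1.2
  rw [pow_succ]
  omega

/-- the bound for `mom r (r - 1)` -/
theorem momR {l W k h α β : ℕ} (hW : 100 ≤ W) (hl : W ^ 60 ≤ l) (hrW : h + 2 ≤ W)
    (hc : ConA l W (h + 2) α β) :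
    (mom (LA k W α β) (psi (2 ^ l)) (KA W β) (psi (2 ^ l)) (h + 2) (h + 1) : ℝ) ≤
        Real.exp (m1A W ((h + 2 : ℕ) : ℝ) ((α : ℝ) * Real.log 2) ((β : ℝ) * Real.log 2)) ∨
    (mom (LA k W α β) (psi (2 ^ l)) (KA W β) (psi (2 ^ l)) (h + 2) (h + 1) : ℝ) ≤
        Real.exp (m2A W ((h + 2 : ℕ) : ℝ) ((α : ℝ) * Real.log 2) ((β : ℝ) * Real.log 2)) := by
  have hr : 2 ≤ h + 2 := by omega
  have hR := RA.of hW hl hr hrW hc
  have hS := cond_pow hr hR.sidon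
  have hS2 := cond_pow hr hR.sqfree
  have hkb := key_bound (LA k W α β) (psi (2 ^ l)) (KA W β) (psi (2 ^ l)) h (by
    intro u hu v hv huv
    refine sidon_primes (P := 2 ^ (β + 1)) (by omega) hS u v ?_ ?_ huv
    · intro i
      have := mem_KA.1 (mem_tup.1 hu i)
      exact ⟨this.2.1, this.1.le⟩
    · intro i
      have := mem_KA.1 (mem_tup.1 hv i)
      exact ⟨this.2.1, this.1.le⟩)
  have hJs := Js_sqfree (W := W) (by omega) hS2 (LA k W α β) (fun m hm => LA_mem hm)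
  have hlam := card_LA (k := k) hW hl hr hrW hc
  have hkap := card_KA W β
  set M : ℝ := (mom (LA k W α β) (psi (2 ^ l)) (KA W β) (psi (2 ^ l)) (h + 2) (h + 1) : ℝ) with hM
  set lam' : ℝ := (#(LA k W α β) : ℝ) with hlam'
  set kap : ℝ := (#(KA W β) : ℝ) with hkap'
  set a : ℝ := (α : ℝ) * Real.log 2 with ha
  set b : ℝ := (β : ℝ) * Real.log 2 with hb
  have hl0 : 0 ≤ lam' := Nat.cast_nonneg _
  have hk0 : 0 ≤ kap := Nat.cast_nonneg _
  set u : ℝ := a - b / 2 + 3 * W with hu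
  have hh0 : (0 : ℝ) ≤ h := Nat.cast_nonneg h
  have two_e : (2 : ℝ) ≤ Real.exp 1 := by
    have := Real.add_one_le_exp (1 : ℝ)
    linarith
  -- first term
  have t1 : 2 * (lam' ^ (2 * (h + 2)) * (h + 1).factorial * kap ^ h) ≤
      Real.exp (1 + (2 * ((h : ℝ) + 2) * u + ((h : ℝ) + 2) ^ 2 + h * (b + 1))) := by
    have p1 : lam' ^ (2 * (h + 2)) ≤ Real.exp (2 * ((h : ℝ) + 2) * u) := by
      calc lam' ^ (2 * (h + 2)) ≤ (Real.exp u) ^ (2 * (h + 2)) := pow_le_pow_left₀ hl0 hlam _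
        _ = _ := by
            rw [← Real.exp_nat_mul]
            congr 1
            push_cast
            ring
    have p2 : ((h + 1).factorial : ℝ) ≤ Real.exp (((h : ℝ) + 2) ^ 2) := by
      refine (factorial_le_exp (h + 1)).trans (Real.exp_le_exp.2 ?_)
      push_cast
      nlinarith
    have p3 : kap ^ h ≤ Real.exp (h * (b + 1)) := by
      calc kap ^ h ≤ (Real.exp (b + 1)) ^ h := pow_le_pow_left₀ hk0 hkap _
        _ = _ := by rw [← Real.exp_nat_mul]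
    calc 2 * (lam' ^ (2 * (h + 2)) * (h + 1).factorial * kap ^ h)
        ≤ Real.exp 1 * (Real.exp (2 * ((h : ℝ) + 2) * u) * Real.exp (((h : ℝ) + 2) ^ 2) *
          Real.exp (h * (b + 1))) := by gcongr
      _ = _ := by rw [← Real.exp_add, ← Real.exp_add, ← Real.exp_add]
  -- second term
  have t2 : (2 * ((h : ℝ) + 1) ^ 2 * kap) ^ (h + 1) *
      (Js (LA k W α β) (psi (2 ^ l)) (h + 2) : ℝ) ≤
      Real.exp (((h : ℝ) + 1) * (2 * ((h : ℝ) + 2) + b + 1) +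
        (((h : ℝ) + 2) * u + ((h : ℝ) + 2) ^ 2 * W)) := by
    have q1 : 2 * ((h : ℝ) + 1) ^ 2 ≤ Real.exp (2 * ((h : ℝ) + 2)) := by
      have h1 : (h : ℝ) + 2 ≤ Real.exp ((h : ℝ) + 1) := by
        have := Real.add_one_le_exp ((h : ℝ) + 1)
        linarith
      have h2 : ((h : ℝ) + 1) ^ 2 ≤ (Real.exp ((h : ℝ) + 1)) ^ 2 :=
        pow_le_pow_left₀ (by linarith) (by linarith) 2
      have h3 : (Real.exp ((h : ℝ) + 1)) ^ 2 = Real.exp (2 * ((h : ℝ) + 1)) := by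
        rw [← Real.exp_nat_mul]
        norm_num
      rw [h3] at h2
      calc 2 * ((h : ℝ) + 1) ^ 2 ≤ Real.exp 1 * Real.exp (2 * ((h : ℝ) + 1)) := by gcongr
        _ = Real.exp (1 + 2 * ((h : ℝ) + 1)) := by rw [← Real.exp_add]
        _ ≤ _ := Real.exp_le_exp.2 (by linarith)
    have q2 : (2 * ((h : ℝ) + 1) ^ 2 * kap) ^ (h + 1) ≤
        Real.exp (((h : ℝ) + 1) * (2 * ((h : ℝ) + 2) + b + 1)) := by
      calc (2 * ((h : ℝ) + 1) ^ 2 * kap) ^ (h + 1)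
          ≤ (Real.exp (2 * ((h : ℝ) + 2)) * Real.exp (b + 1)) ^ (h + 1) := by gcongr
        _ = _ := by
            rw [← Real.exp_add, ← Real.exp_nat_mul]
            congr 1
            push_cast
            ring
    have q3 : (Js (LA k W α β) (psi (2 ^ l)) (h + 2) : ℝ) ≤
        Real.exp (((h : ℝ) + 2) * u + ((h : ℝ) + 2) ^ 2 * W) := by
      have h1 : (Js (LA k W α β) (psi (2 ^ l)) (h + 2) : ℝ) ≤
          lam' ^ (h + 2) * 2 ^ ((h + 2) * (h + 2) * W) := by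
        rw [hlam']
        exact_mod_cast hJs
      refine h1.trans ?_
      have h2 : lam' ^ (h + 2) ≤ Real.exp (((h : ℝ) + 2) * u) := by
        calc lam' ^ (h + 2) ≤ (Real.exp u) ^ (h + 2) := pow_le_pow_left₀ hl0 hlam _
          _ = _ := by
              rw [← Real.exp_nat_mul]
              congr 1
              push_cast
              ring
      have h3 : (2 : ℝ) ^ ((h + 2) * (h + 2) * W) ≤ Real.exp (((h : ℝ) + 2) ^ 2 * W) := by
        calc (2 : ℝ) ^ ((h + 2) * (h + 2) * W) ≤ (Real.exp 1) ^ ((h + 2) * (h + 2) * W) :=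
              pow_le_pow_left₀ (by norm_num) two_e _
          _ = _ := by
              rw [← Real.exp_nat_mul]
              congr 1
              push_cast
              ring
      calc lam' ^ (h + 2) * 2 ^ ((h + 2) * (h + 2) * W)
          ≤ Real.exp (((h : ℝ) + 2) * u) * Real.exp (((h : ℝ) + 2) ^ 2 * W) := by gcongr
        _ = _ := by rw [← Real.exp_add]
    calc _ ≤ Real.exp (((h : ℝ) + 1) * (2 * ((h : ℝ) + 2) + b + 1)) *
          Real.exp (((h : ℝ) + 2) * u + ((h : ℝ) + 2) ^ 2 * W) := by gcongr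
      _ = _ := by rw [← Real.exp_add]
  have hsum : M ≤ Real.exp (1 + (2 * ((h : ℝ) + 2) * u + ((h : ℝ) + 2) ^ 2 + h * (b + 1))) +
      Real.exp (((h : ℝ) + 1) * (2 * ((h : ℝ) + 2) + b + 1) +
        (((h : ℝ) + 2) * u + ((h : ℝ) + 2) ^ 2 * W)) := hkb.trans (add_le_add t1 t2)
  rcases le_total (1 + (2 * ((h : ℝ) + 2) * u + ((h : ℝ) + 2) ^ 2 + h * (b + 1)))
      (((h : ℝ) + 1) * (2 * ((h : ℝ) + 2) + b + 1) +
        (((h : ℝ) + 2) * u + ((h : ℝ) + 2) ^ 2 * W)) with hle | hle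
  · right
    have h1 := Real.exp_le_exp.2 hle
    have h2 : M ≤ 2 * Real.exp (((h : ℝ) + 1) * (2 * ((h : ℝ) + 2) + b + 1) +
        (((h : ℝ) + 2) * u + ((h : ℝ) + 2) ^ 2 * W)) := by linarith
    refine h2.trans ?_
    calc _ ≤ Real.exp 1 * Real.exp (((h : ℝ) + 1) * (2 * ((h : ℝ) + 2) + b + 1) +
        (((h : ℝ) + 2) * u + ((h : ℝ) + 2) ^ 2 * W)) := by gcongr
      _ ≤ _ := by
          rw [← Real.exp_add]
          apply Real.exp_le_exp.2
          unfold m2A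
          push_cast
          rw [hu]
          nlinarith
  · left
    have h1 := Real.exp_le_exp.2 hle
    have h2 : M ≤ 2 * Real.exp (1 + (2 * ((h : ℝ) + 2) * u + ((h : ℝ) + 2) ^ 2 +
        h * (b + 1))) := by linarith
    refine h2.trans ?_
    calc _ ≤ Real.exp 1 * Real.exp (1 + (2 * ((h : ℝ) + 2) * u + ((h : ℝ) + 2) ^ 2 +
        h * (b + 1))) := by gcongr
      _ ≤ _ := by
          rw [← Real.exp_add]
          apply Real.exp_le_exp.2
          unfold m1A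
          push_cast
          rw [hu]
          nlinarith

theorem momA {C : ℝ} (hHM : ∀ k Q N H : ℕ, 2 ≤ k → 16 ≤ Q → 1 ≤ N → 1 ≤ H →
      (N : ℝ) ≤ (Q : ℝ) ^ (((k : ℝ) + 2) / 2) →
      ∀ I : Finset ℕ, I ⊆ Icc Q (H * Q) →
        (Js I (Pool.Agent.Helper73.HM.psq N) (k ^ 3) : ℝ) ≤
          Real.exp (C * (k : ℝ) ^ 10) * (H : ℝ) ^ (4 * k ^ 3) *
          (Q : ℝ) ^ ((2 : ℝ) * (k : ℝ) ^ 3 + 7 / 4) / N)
    {l W k r α β : ℕ} (hW : 100 ≤ W) (hl : W ^ 60 ≤ l) (hr : 2 ≤ r) (hrW : r ≤ W)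
    (hc : ConA l W r α β) {t : ℝ} (ht : t = 1 / ((r : ℝ) * (512 * (W : ℝ) ^ 3 - r))) :
    ∃ m : ℝ, (m = m1A W r ((α : ℝ) * Real.log 2) ((β : ℝ) * Real.log 2) ∨
      m = m2A W r ((α : ℝ) * Real.log 2) ((β : ℝ) * Real.log 2)) ∧
    (mom (LA k W α β) (psi (2 ^ l)) (KA W β) (psi (2 ^ l)) 1 r : ℝ) ≤
      Real.exp (m / r + (1 - 1 / (r : ℝ) - t) * jA r ((β : ℝ) * Real.log 2) +
        t * qA C W ((β : ℝ) * Real.log 2) ((l : ℝ) * Real.log 2)) := by
  have hR := RA.of hW hl hr hrW hc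
  obtain ⟨ht0, ht1, htr, hts, htl, hexp⟩ := gam_facts hR ht
  obtain ⟨h, rfl⟩ : ∃ h, r = h + 2 := ⟨r - 2, by omega⟩
  have hS := cond_pow hr hR.sidon
  have hJr := Js_primes (by omega) hS (KA W β) (fun p hp => by
    have := mem_KA.1 hp
    exact ⟨this.2.1, this.1.le⟩)
  have hJs := JsHM hHM hW hl hr hrW hc
  have hkap := card_KA W β
  have hs : h + 2 < 512 * W ^ 3 := by
    have h1 : W ≤ W ^ 3 := Nat.le_self_pow (by norm_num) W
    omega
  have heb := energy_bound (LA k W α β) (psi (2 ^ l)) (KA W β) (psi (2 ^ l)) h (512 * W ^ 3) hs t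
    (by rw [ht]; push_cast; ring)
  have hm := momR (k := k) hW hl hrW hc
  set b : ℝ := (β : ℝ) * Real.log 2 with hb
  have hJr' : (Js (KA W β) (psi (2 ^ l)) (h + 2) : ℝ) ≤ Real.exp (jA ((h + 2 : ℕ) : ℝ) b) := by
    have h1 : (Js (KA W β) (psi (2 ^ l)) (h + 2) : ℝ) ≤
        ((h + 2).factorial : ℝ) * (#(KA W β) : ℝ) ^ (h + 2) := by exact_mod_cast hJr
    refine h1.trans ?_
    calc ((h + 2).factorial : ℝ) * (#(KA W β) : ℝ) ^ (h + 2)
        ≤ Real.exp (((h + 2 : ℕ) : ℝ) ^ 2) * (Real.exp (b + 1)) ^ (h + 2) := by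
          gcongr
          exact factorial_le_exp (h + 2)
      _ = _ := by
          rw [← Real.exp_nat_mul, ← Real.exp_add]
          rfl
  have e2 : ((h : ℝ) + 2) = ((h + 2 : ℕ) : ℝ) := by push_cast; ring
  rw [e2] at heb
  have hr0 : (0 : ℝ) < ((h + 2 : ℕ) : ℝ) := by positivity
  have main : ∀ m : ℝ, (mom (LA k W α β) (psi (2 ^ l)) (KA W β) (psi (2 ^ l)) (h + 2) (h + 1) : ℝ) ≤
      Real.exp m → (mom (LA k W α β) (psi (2 ^ l)) (KA W β) (psi (2 ^ l)) 1 (h + 2) : ℝ) ≤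
      Real.exp (m / ((h + 2 : ℕ) : ℝ) + (1 - 1 / ((h + 2 : ℕ) : ℝ) - t) * jA ((h + 2 : ℕ) : ℝ) b +
        t * qA C W b ((l : ℝ) * Real.log 2)) := by
    intro m hm
    refine heb.trans ?_
    calc _ ≤ (Real.exp m) ^ (1 / ((h + 2 : ℕ) : ℝ)) *
          (Real.exp (jA ((h + 2 : ℕ) : ℝ) b)) ^ (1 - 1 / ((h + 2 : ℕ) : ℝ) - t) *
          (Real.exp (qA C W b ((l : ℝ) * Real.log 2))) ^ t := by
          gcongr
      _ = _ := by
          rw [← Real.exp_mul, ← Real.exp_mul, ← Real.exp_mul, ← Real.exp_add, ← Real.exp_add]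
          congr 1
          ring
  rcases hm with hm | hm
  · exact ⟨_, Or.inl rfl, main _ hm⟩
  · exact ⟨_, Or.inr rfl, main _ hm⟩

end Pool.Agent.Helper72.CA
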