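import Mathlib
import Pool.Agent.Helper72.CA.Mom
import Pool.Agent.Helper72.CA.Count

/-!
# Case A: conclusion
-/

set_option autoImplicit false

namespace Pool.Agent.Helper72.CA

open Finset Pool.Agent.Helper58.LT Pool.Agent.Helper6.LehmerCount Pool.Agent.Helper6.Lehmer

theorem classA : ∃ W₀ : ℕ, ∀ (l W k r α β : ℕ) (S : Finset ℕ), W₀ ≤ W → W ^ 60 ≤ l → 2 ≤ r → r ≤ W →
    ConA l W r α β →
    (∀ n ∈ S, Idx n k ∧ n ≤ 2 ^ l ∧ 2 ^ (l - 1) < n ∧ DataA n l W k r α β) →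
    (#S : ℝ) ≤ (2 : ℝ) ^ ((l : ℝ) / 2) * Real.exp (-((l : ℝ) / (W : ℝ) ^ 7)) := by
  obtain ⟨C, hC0, hHM⟩ := HM
  refine ⟨max 300 ⌈C⌉₊, ?_⟩
  intro l W k r α β S hW0 hl hr hrW hc hS
  have hW300 : 300 ≤ W := (le_max_left _ _).trans hW0
  have hCW : C ≤ W := by
    have h1 : ⌈C⌉₊ ≤ W := (le_max_right _ _).trans hW0
    exact (Nat.le_ceil C).trans (by exact_mod_cast h1)
  have hW : 100 ≤ W := by omega
  have hR := RA.of hW hl hr hrW hc
  have hw300 : (300 : ℝ) ≤ W := by exact_mod_cast hW300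
  set t : ℝ := 1 / ((r : ℝ) * (512 * (W : ℝ) ^ 3 - r)) with ht
  obtain ⟨m, hm, hmom⟩ := momA hHM (k := k) hW hl hr hrW hc ht
  have hcount := countA hS
  set b : ℝ := (β : ℝ) * Real.log 2 with hb
  set a : ℝ := (α : ℝ) * Real.log 2 with ha
  set L : ℝ := (l : ℝ) * Real.log 2 with hL
  have hnum : (L / 2 - b / 2 + W + 1) + (2 * (r : ℝ) + 11) + m / r +
      (1 - 1 / (r : ℝ) - t) * jA r b + t * qA C W b L ≤ L - 3 * L / (W : ℝ) ^ 7 := by
    rcases hm with rfl | rfl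
    · exact num1 hR hw300 hC0.le hCW ht
    · exact num2 hR hw300 hC0.le hCW ht
  have hF : (2 : ℝ) ^ ((l : ℝ) / 2 - (β : ℝ) / 2) * Real.exp (W + 1) =
      Real.exp (L / 2 - b / 2 + W + 1) := by
    rw [Real.rpow_def_of_pos (by norm_num), ← Real.exp_add]
    congr 1
    rw [hL, hb]
    ring
  have h2r : (2 * (r : ℝ) + 11) ≤ Real.exp (2 * r + 11) := by
    have := Real.add_one_le_exp (2 * (r : ℝ) + 11)
    linarith
  have hsq : (#S : ℝ) ^ 2 ≤ Real.exp (L - 3 * L / (W : ℝ) ^ 7) := by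
    refine hcount.trans ?_
    rw [hF]
    calc _ ≤ Real.exp (L / 2 - b / 2 + W + 1) * Real.exp (2 * r + 11) *
          Real.exp (m / r + (1 - 1 / (r : ℝ) - t) * jA r b + t * qA C W b L) := by gcongr
      _ ≤ _ := by
          rw [← Real.exp_add, ← Real.exp_add]
          apply Real.exp_le_exp.2
          linarith
  have hW0' : (0 : ℝ) < W := by linarith
  have htar : Real.exp (L - 3 * L / (W : ℝ) ^ 7) ≤
      ((2 : ℝ) ^ ((l : ℝ) / 2) * Real.exp (-((l : ℝ) / (W : ℝ) ^ 7))) ^ 2 := by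
    have e1 : (2 : ℝ) ^ ((l : ℝ) / 2) = Real.exp (L / 2) := by
      rw [Real.rpow_def_of_pos (by norm_num)]
      congr 1
      rw [hL]
      ring
    rw [e1, ← Real.exp_add, ← Real.exp_nat_mul]
    apply Real.exp_le_exp.2
    have h1 : 2 * ((l : ℝ) / (W : ℝ) ^ 7) ≤ 3 * L / (W : ℝ) ^ 7 := by
      rw [mul_div_assoc', div_le_div_iff_of_pos_right (by positivity), hL]
      have h2 := Real.log_two_gt_d9
      have h3 : (0 : ℝ) ≤ l := Nat.cast_nonneg l
      nlinarith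
    push_cast
    linarith
  have hfin := hsq.trans htar
  exact (abs_le_of_sq_le_sq' hfin (by positivity)).2

end Pool.Agent.Helper72.CA
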